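import Mathlib

set_option autoImplicit false

/-!
Exceptional sets given at dyadic scales, with a power saving; unions over small multipliers (helper74).
-/

namespace Pool.Agent.J4.H74.EX

open Finset Filter Topology

/-- dyadic decomposition with a power saving -/
theorem dyadic_pow {s : ℝ} (hs : 0 ≤ s) (S : ℕ → ℕ → Prop) (V : ℕ → Prop)
    (hS : ∃ M₀ : ℕ, ∀ M : ℕ, M₀ ≤ M → ({n : ℕ | n < M ∧ S M n}.ncard : ℝ) ≤ (M : ℝ) ^ s)
    (hV : ∃ n₀ : ℕ, ∀ n : ℕ, n₀ ≤ n → V n → S (2 ^ (Nat.log 2 n + 1)) n) (ε : ℝ) (hε : 0 < ε) :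
    ∃ C : ℝ, ∀ X : ℕ, 1 ≤ X → ({n : ℕ | 1 ≤ n ∧ n ≤ X ∧ V n}.ncard : ℝ) ≤ C * (X : ℝ) ^ (s + ε) := by
  classical
  obtain ⟨M₀, hM₀⟩ := hS
  obtain ⟨n₀, hn₀⟩ := hV
  obtain ⟨D, hD⟩ : ∃ D : ℝ, D = (n₀ : ℝ) + M₀ + 2 ^ s := ⟨_, rfl⟩
  have hD0 : 0 < D := by rw [hD]; positivity
  refine ⟨(2 + 2 / ε) * D, fun X hX => ?_⟩
  have hX1 : (1 : ℝ) ≤ X := by exact_mod_cast hX
  have hX0 : (0 : ℝ) < X := by linarith
  obtain ⟨J, hJ⟩ : ∃ J : ℕ, J = Nat.log 2 X := ⟨_, rfl⟩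
  obtain ⟨T, hT⟩ : ∃ T : Finset ℕ, T = (Icc 1 X).filter (fun n => V n) := ⟨_, rfl⟩
  have e0 : {n : ℕ | 1 ≤ n ∧ n ≤ X ∧ V n} = (T : Set ℕ) := by
    ext n
    rw [hT, Finset.coe_filter, Set.mem_ofPred_eq, Set.mem_ofPred_eq, mem_Icc]
    tauto
  rw [e0, Set.ncard_coe_finset]
  have hcover : T ⊆ (range (J + 1)).biUnion (fun j => T.filter (fun n => Nat.log 2 n = j)) := by
    intro n hn
    rw [mem_biUnion]
    refine ⟨Nat.log 2 n, ?_, by rw [mem_filter]; exact ⟨hn, rfl⟩⟩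
    rw [hT, mem_filter, mem_Icc] at hn
    rw [mem_range, hJ]
    have := Nat.log_mono_right (b := 2) hn.1.2
    omega
  have hpiece : ∀ j ∈ range (J + 1), ((T.filter (fun n => Nat.log 2 n = j)).card : ℝ) ≤ D * (X : ℝ) ^ s := by
    intro j hj
    rw [mem_range] at hj
    have hXs : 1 ≤ (X : ℝ) ^ s := Real.one_le_rpow hX1 hs
    have hlt : ∀ n ∈ T.filter (fun n => Nat.log 2 n = j), n < 2 ^ (j + 1) := by
      intro n hn
      rw [mem_filter] at hn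
      have := Nat.lt_pow_succ_log_self (b := 2) (by norm_num) n
      rwa [hn.2] at this
    rcases lt_or_ge (2 ^ (j + 1)) M₀ with h1 | h1
    · have h2 : T.filter (fun n => Nat.log 2 n = j) ⊆ range M₀ := by
        intro n hn
        rw [mem_range]
        exact (hlt n hn).trans h1
      have h3 := card_le_card h2
      rw [card_range] at h3
      have h4 : ((T.filter (fun n => Nat.log 2 n = j)).card : ℝ) ≤ M₀ := by exact_mod_cast h3
      have h5 : (M₀ : ℝ) ≤ D := by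
        rw [hD]
        have : (0 : ℝ) ≤ n₀ := Nat.cast_nonneg _
        have : (0 : ℝ) < 2 ^ s := by positivity
        linarith
      nlinarith
    · have h2 : T.filter (fun n => Nat.log 2 n = j) ⊆ range n₀ ∪
          (range (2 ^ (j + 1))).filter (fun n => S (2 ^ (j + 1)) n) := by
        intro n hn
        have h3 := hlt n hn
        rw [mem_filter] at hn
        rw [mem_union, mem_range, mem_filter, mem_range]
        rcases lt_or_ge n n₀ with h4 | h4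
        · exact Or.inl h4
        · right
          refine ⟨h3, ?_⟩
          have h5 := hn.1
          rw [hT, mem_filter] at h5
          have h6 := hn₀ n h4 h5.2
          rwa [hn.2] at h6
      have h3 := (card_le_card h2).trans (card_union_le _ _)
      rw [card_range] at h3
      have h4 : (((range (2 ^ (j + 1))).filter (fun n => S (2 ^ (j + 1)) n)).card : ℝ) ≤
          ((2 ^ (j + 1) : ℕ) : ℝ) ^ s := by
        refine le_trans (le_of_eq ?_) (hM₀ (2 ^ (j + 1)) h1)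
        rw [← Set.ncard_coe_finset]
        congr 2
        ext n
        simp only [Finset.coe_filter, Finset.mem_range, Set.mem_ofPred_eq]
      have h5 : ((2 ^ (j + 1) : ℕ) : ℝ) ^ s ≤ 2 ^ s * (X : ℝ) ^ s := by
        rw [← Real.mul_rpow (by norm_num) hX0.le]
        apply Real.rpow_le_rpow (by positivity) _ hs
        have h6 : 2 ^ j ≤ X := (Nat.pow_le_pow_right (by norm_num) (by omega)).trans
          (Nat.pow_log_le_self 2 (by omega : X ≠ 0))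
        have h7 : 2 ^ (j + 1) ≤ 2 * X := by rw [pow_succ]; omega
        exact_mod_cast h7
      have h6 : ((T.filter (fun n => Nat.log 2 n = j)).card : ℝ) ≤ n₀ +
          (((range (2 ^ (j + 1))).filter (fun n => S (2 ^ (j + 1)) n)).card : ℝ) := by exact_mod_cast h3
      have h7 : (n₀ : ℝ) ≤ n₀ * (X : ℝ) ^ s := le_mul_of_one_le_right (Nat.cast_nonneg _) hXs
      have h8 : (0 : ℝ) ≤ M₀ * (X : ℝ) ^ s := by positivity
      rw [hD]
      calc ((T.filter (fun n => Nat.log 2 n = j)).card : ℝ) ≤ n₀ * (X : ℝ) ^ s + 2 ^ s * (X : ℝ) ^ s := by linarith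
        _ ≤ ((n₀ : ℝ) + M₀ + 2 ^ s) * (X : ℝ) ^ s := by nlinarith
  have hJr : (J : ℝ) + 1 ≤ (2 + 2 / ε) * (X : ℝ) ^ ε := by
    have h1 : (J : ℝ) ≤ 2 * Real.log X := by
      have h2 : (2 : ℝ) ^ J ≤ X := by
        rw [hJ]
        exact_mod_cast Nat.pow_log_le_self 2 (by omega : X ≠ 0)
      have h3 := Real.log_le_log (by positivity) h2
      rw [Real.log_pow] at h3
      have h4 := Real.log_two_gt_d9
      have h5 : (0 : ℝ) ≤ (J : ℝ) := Nat.cast_nonneg _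
      nlinarith
    have h2 := Real.log_le_rpow_div hX0.le hε
    have h3 : 1 ≤ (X : ℝ) ^ ε := Real.one_le_rpow hX1 hε.le
    calc (J : ℝ) + 1 ≤ 2 * ((X : ℝ) ^ ε / ε) + 1 := by linarith
      _ ≤ 2 * ((X : ℝ) ^ ε / ε) + 2 * (X : ℝ) ^ ε := by linarith
      _ = _ := by ring
  have hcard : (T.card : ℝ) ≤ ∑ j ∈ range (J + 1), ((T.filter (fun n => Nat.log 2 n = j)).card : ℝ) := by
    exact_mod_cast (card_le_card hcover).trans card_biUnion_le
  refine hcard.trans ((sum_le_sum hpiece).trans ?_)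
  rw [sum_const, card_range, nsmul_eq_mul, Real.rpow_add hX0]
  push_cast
  calc ((J : ℝ) + 1) * (D * (X : ℝ) ^ s) ≤ ((2 + 2 / ε) * (X : ℝ) ^ ε) * (D * (X : ℝ) ^ s) :=
        mul_le_mul_of_nonneg_right hJr (by positivity)
    _ = _ := by ring

/-- union over small multipliers -/
theorem mult_union {s v K : ℝ} (hK : 0 ≤ K) (P : ℕ → ℕ → Prop) (Ad : ℕ → Prop) (M : ℕ) (hM : 1 ≤ M)
    (h : ∀ l : ℕ, Ad l → ({n : ℕ | n < M ∧ P l n}.ncard : ℝ) ≤ K * (M : ℝ) ^ s) :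
    ({n : ℕ | n < M ∧ ∃ l : ℕ, 1 ≤ l ∧ (l : ℝ) ≤ (M : ℝ) ^ v ∧ Ad l ∧ P l n}.ncard : ℝ) ≤ K * (M : ℝ) ^ (s + v) := by
  classical
  have hM1 : (1 : ℝ) ≤ M := by exact_mod_cast hM
  have hM0 : (0 : ℝ) < M := by linarith
  obtain ⟨U, hU⟩ : ∃ U : Finset ℕ, U = (Icc 1 ⌊(M : ℝ) ^ v⌋₊).filter (fun l => Ad l) := ⟨_, rfl⟩
  have hUc : (U.card : ℝ) ≤ (M : ℝ) ^ v := by
    have h1 : U.card ≤ ⌊(M : ℝ) ^ v⌋₊ := by
      rw [hU]
      refine (card_filter_le _ _).trans ?_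
      rw [Nat.card_Icc]
      omega
    calc (U.card : ℝ) ≤ (⌊(M : ℝ) ^ v⌋₊ : ℝ) := by exact_mod_cast h1
      _ ≤ _ := Nat.floor_le (by positivity)
  have hsub : {n : ℕ | n < M ∧ ∃ l : ℕ, 1 ≤ l ∧ (l : ℝ) ≤ (M : ℝ) ^ v ∧ Ad l ∧ P l n} ⊆
      ((U.biUnion (fun l => (range M).filter (fun n => P l n)) : Finset ℕ) : Set ℕ) := by
    rintro n ⟨h1, l, h2, h3, h4, h5⟩
    rw [Finset.mem_coe, mem_biUnion]
    refine ⟨l, ?_, ?_⟩
    · rw [hU, mem_filter, mem_Icc]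
      exact ⟨⟨h2, Nat.le_floor h3⟩, h4⟩
    · rw [mem_filter, mem_range]
      exact ⟨h1, h5⟩
  have h1 := Set.ncard_le_ncard hsub (Finset.finite_toSet _)
  rw [Set.ncard_coe_finset] at h1
  have h2 := h1.trans card_biUnion_le
  have h3 : ∀ l ∈ U, (((range M).filter (fun n => P l n)).card : ℝ) ≤ K * (M : ℝ) ^ s := by
    intro l hl
    rw [hU, mem_filter] at hl
    refine le_trans (le_of_eq ?_) (h l hl.2)
    rw [← Set.ncard_coe_finset]
    congr 2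
    ext n
    simp only [Finset.coe_filter, Finset.mem_range, Set.mem_ofPred_eq]
  calc ({n : ℕ | n < M ∧ ∃ l : ℕ, 1 ≤ l ∧ (l : ℝ) ≤ (M : ℝ) ^ v ∧ Ad l ∧ P l n}.ncard : ℝ)
      ≤ ∑ l ∈ U, (((range M).filter (fun n => P l n)).card : ℝ) := by exact_mod_cast h2
    _ ≤ ∑ _l ∈ U, K * (M : ℝ) ^ s := sum_le_sum h3
    _ = U.card * (K * (M : ℝ) ^ s) := by rw [sum_const, nsmul_eq_mul]
    _ ≤ (M : ℝ) ^ v * (K * (M : ℝ) ^ s) := mul_le_mul_of_nonneg_right hUc (by positivity)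
    _ = _ := by rw [Real.rpow_add hM0]; ring

end Pool.Agent.J4.H74.EX
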